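import Mathlib

set_option autoImplicit false

namespace Pool.Agent.Results.MP_390115_co.ExponentialUpperBound

/-- `Q` is contained in `P` as a covering subset: some order embedding `Q → P` preserves
covers. -/
def ContainsCovering (P Q : Type) [PartialOrder P] [PartialOrder Q] : Prop :=
  ∃ f : Q ↪o P, ∀ x y : Q, x ⋖ y → f x ⋖ f y

/-- `b n`: the least size of an ordered set containing every ordered set with at most `n`
elements as a covering subset. -/
noncomputable def b (n : ℕ) : ℕ :=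
  sInf {m : ℕ | ∃ (P : Type) (_ : PartialOrder P) (_ : Fintype P), Fintype.card P = m ∧
    ∀ (Q : Type) [PartialOrder Q] [Fintype Q], Fintype.card Q ≤ n → ContainsCovering P Q}

/-- The universal ordered set: pairs of an index `i < n` and a labelling of `{0, ..., i-1}`
by `0` (not below), `1` (below, not covered), `2` (covered). -/
def U (n : ℕ) : Type := Σ i : Fin n, (Fin i.1 → Fin 3)

namespace U

variable {n : ℕ}

instance : Fintype (U n) := inferInstanceAs (Fintype (Σ i : Fin n, (Fin i.1 → Fin 3)))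

/-- the strict order -/
def Lt (u v : U n) : Prop :=
  ∃ h : u.1.1 < v.1.1, v.2 ⟨u.1.1, h⟩ ≠ 0 ∧
    ∀ l : Fin u.1.1, u.2 l ≠ 0 → v.2 ⟨l.1, l.2.trans h⟩ = 1

theorem Lt.trans {u v w : U n} (h1 : Lt u v) (h2 : Lt v w) : Lt u w := by
  obtain ⟨a1, b1, c1⟩ := h1
  obtain ⟨a2, b2, c2⟩ := h2
  refine ⟨a1.trans a2, ?_, ?_⟩
  · rw [c2 ⟨u.1.1, a1⟩ b1]
    decide
  · intro l hl
    have h3 := c1 l hl
    exact c2 ⟨l.1, l.2.trans a1⟩ (by rw [h3]; decide)

instance : PartialOrder (U n) where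
  le u v := u = v ∨ Lt u v
  le_refl u := Or.inl rfl
  le_trans u v w h1 h2 := by
    rcases h1 with rfl | h1
    · exact h2
    · rcases h2 with rfl | h2
      · exact Or.inr h1
      · exact Or.inr (h1.trans h2)
  le_antisymm u v h1 h2 := by
    rcases h1 with rfl | h1
    · rfl
    · rcases h2 with rfl | h2
      · rfl
      · exact absurd (h1.trans h2).1 (lt_irrefl _)

theorem le_def {u v : U n} : u ≤ v ↔ u = v ∨ Lt u v := Iff.rfl

theorem lt_def {u v : U n} : u < v ↔ Lt u v := by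
  rw [lt_iff_le_and_ne, le_def]
  constructor
  · rintro ⟨h | h, h'⟩
    · exact absurd h h'
    · exact h
  · intro h
    refine ⟨Or.inr h, ?_⟩
    rintro rfl
    exact lt_irrefl _ h.1

theorem card_eq (n : ℕ) : Fintype.card (U n) = (3 ^ n - 1) / 2 := by
  have h1 : Fintype.card (U n) = Fintype.card (Σ i : Fin n, (Fin i.1 → Fin 3)) := rfl
  rw [h1, Fintype.card_sigma]
  simp only [Fintype.card_fun, Fintype.card_fin]
  rw [Fin.sum_univ_eq_sum_range (fun i => 3 ^ i) n, Nat.geomSum_eq (by norm_num)]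

theorem contains (Q : Type) [PartialOrder Q] [Fintype Q] (hQ : Fintype.card Q ≤ n) :
    ContainsCovering (U n) Q := by
  classical
  -- a linear extension
  letI : Fintype (LinearExtension Q) := inferInstanceAs (Fintype Q)
  let e : LinearExtension Q ≃o Fin (Fintype.card Q) :=
    (Fintype.orderIsoFinOfCardEq (LinearExtension Q) rfl).symm
  let g : Q → ℕ := fun x => (e (toLinearExtension x)).1
  have hginj : Function.Injective g := by
    intro x y h
    exact e.injective (Fin.ext h)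
  have hgmono : ∀ x y : Q, x < y → g x < g y := by
    intro x y h
    have h1 : e (toLinearExtension x) ≤ e (toLinearExtension y) :=
      e.monotone (toLinearExtension.monotone h.le)
    have h2 : g x ≠ g y := fun h3 => h.ne (hginj h3)
    exact lt_of_le_of_ne h1 h2
  have hgn : ∀ x : Q, g x < n := fun x => lt_of_lt_of_le (e (toLinearExtension x)).2 hQ
  let τ : Q → ℕ → Fin 3 := fun x l =>
    if ∃ y : Q, g y = l ∧ y ⋖ x then 2 else if ∃ y : Q, g y = l ∧ y < x then 1 else 0
  have hτ2 : ∀ x y : Q, y ⋖ x → τ x (g y) = 2 := by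
    intro x y h
    exact if_pos ⟨y, rfl, h⟩
  have hτ1 : ∀ x y : Q, y < x → ¬ y ⋖ x → τ x (g y) = 1 := by
    intro x y h h'
    have h1 : ¬ ∃ z : Q, g z = g y ∧ z ⋖ x := by
      rintro ⟨z, hz, hz'⟩
      rw [hginj hz] at hz'
      exact h' hz'
    simp only [τ]
    rw [if_neg h1, if_pos ⟨y, rfl, h⟩]
  have hτ0 : ∀ (x : Q) (l : ℕ), τ x l ≠ 0 → ∃ y : Q, g y = l ∧ y < x := by
    intro x l h
    by_contra hcon
    apply h
    have h1 : ¬ ∃ z : Q, g z = l ∧ z ⋖ x := by
      rintro ⟨z, hz, hz'⟩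
      exact hcon ⟨z, hz, hz'.lt⟩
    simp only [τ]
    rw [if_neg h1, if_neg hcon]
  let F : Q → U n := fun x => ⟨⟨g x, hgn x⟩, fun l => τ x l.1⟩
  have hFlt : ∀ x y : Q, F x < F y ↔ x < y := by
    intro x y
    rw [lt_def]
    constructor
    · rintro ⟨h1, h2, _⟩
      obtain ⟨z, hz, hz'⟩ := hτ0 y (g x) h2
      rw [hginj hz] at hz'
      exact hz'
    · intro h
      refine ⟨hgmono x y h, ?_, ?_⟩
      · show τ y (g x) ≠ 0
        by_cases hc : x ⋖ y
        · rw [hτ2 y x hc]; decide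
        · rw [hτ1 y x h hc]; decide
      · intro l hl
        obtain ⟨z, hz, hz'⟩ := hτ0 x l.1 hl
        show τ y l.1 = 1
        rw [← hz]
        exact hτ1 y z (hz'.trans h) fun hc => hc.2 hz' h
  have hFinj : Function.Injective F := by
    intro x y h
    have h1 : (F x).1.1 = (F y).1.1 := by rw [h]
    exact hginj h1
  refine ⟨OrderEmbedding.ofMapLEIff F fun x y => ?_, ?_⟩
  · rw [le_iff_lt_or_eq, le_iff_lt_or_eq, hFlt, hFinj.eq_iff]
  · intro x y h
    refine ⟨(hFlt x y).2 h.lt, ?_⟩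
    intro u hu1 hu2
    obtain ⟨a1, b1, c1⟩ := lt_def.1 hu1
    obtain ⟨a2, b2, c2⟩ := lt_def.1 hu2
    have h3 := c2 ⟨(F x).1.1, a1⟩ b1
    have h4 : τ y (g x) = 1 := h3
    rw [hτ2 y x h] at h4
    revert h4
    decide

end U

/-- `b_n ≤ (3 ^ n - 1) / 2` for all `n`; in particular `log_2 b_n ≤ n log_2 3`. -/
theorem result : (∀ n : ℕ, b n ≤ (3 ^ n - 1) / 2) ∧
    ∀ n : ℕ, Real.logb 2 (b n) ≤ n * Real.logb 2 3 := by
  have h1 : ∀ n : ℕ, b n ≤ (3 ^ n - 1) / 2 := fun n =>
    Nat.sInf_le ⟨U n, inferInstance, inferInstance, U.card_eq n, fun Q _ _ hQ =>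
      U.contains Q hQ⟩
  refine ⟨h1, fun n => ?_⟩
  rcases Nat.eq_zero_or_pos (b n) with h0 | h0
  · rw [h0, Nat.cast_zero, Real.logb_zero]
    apply mul_nonneg (Nat.cast_nonneg n)
    exact (Real.logb_pos (by norm_num) (by norm_num)).le
  · rw [← Real.logb_pow]
    apply Real.logb_le_logb_of_le (by norm_num)
    · exact_mod_cast h0
    · have h2 : b n ≤ 3 ^ n := (h1 n).trans ((Nat.div_le_self _ _).trans (Nat.sub_le _ _))
      exact_mod_cast h2

end Pool.Agent.Results.MP_390115_co.ExponentialUpperBound
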